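import Pool.Agent.Helper10.Qc.Stmts

set_option autoImplicit false

/-!
# Lower bound of a sum over the orbit (module OL)
-/

namespace Pool.Agent.Helper10.Qc

open Pool.Agent.Helper19.Qh Pool.Agent.Helper19.Qc

theorem ol_beq {a b : ℕ} : (Nat.beq a b = true) ↔ a = b :=
  ⟨Nat.eq_of_beq_eq_true, fun h => by rw [h]; exact Nat.beq_refl b⟩

theorem ol_cond {a b : Bool} : (cond a b false = true) ↔ (a = true ∧ b = true) := by
  cases a <;> simp

theorem ol_par {b0 b1 b2 b3 n a1 a2 a3 : ℕ} (h : parOK b0 b1 b2 b3 n a1 a2 a3 = true) :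
    (b0 + b1) % 2 = 0 ∧ (b0 + b2) % 2 = 0 ∧ (b0 + b3) % 2 = 0 ∧ 4 * n = nsq b0 b1 b2 b3 8 ∧
    (n + a1) % 2 = 0 ∧ (n + a2) % 2 = 0 ∧ (n + a3) % 2 = 0 := by
  unfold parOK at h
  simp only [ol_cond, ol_beq] at h
  exact h

theorem ol_df (x o : ℕ) : ((df x o : ℕ) : ℤ) ^ 2 = ((x : ℤ) - o) ^ 2 := by
  have h : df x o = (x - o) + (o - x) := rfl
  rw [h]
  rcases le_total x o with h1 | h1
  · rw [Nat.sub_eq_zero_of_le h1]
    push_cast [Nat.cast_sub h1]
    ring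
  · rw [Nat.sub_eq_zero_of_le h1]
    push_cast [Nat.cast_sub h1]
    ring

theorem ol_nsq (x0 x1 x2 x3 o : ℕ) : ((nsq x0 x1 x2 x3 o : ℕ) : ℤ) =
    ((x0 : ℤ) - o) ^ 2 + ((x1 : ℤ) - o) ^ 2 + ((x2 : ℤ) - o) ^ 2 + ((x3 : ℤ) - o) ^ 2 := by
  have h : nsq x0 x1 x2 x3 o = (df x0 o * df x0 o + df x1 o * df x1 o) +
      (df x2 o * df x2 o + df x3 o * df x3 o) := rfl
  rw [h]
  push_cast
  rw [← sq, ← sq, ← sq, ← sq, ol_df, ol_df, ol_df, ol_df]
  ring

theorem ol_NO (h4 : ST_HZ) {c : ℕ} (hc : cOK c) : NO (hf (cA c)) (e1 (hf (cB c))) := by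
  obtain ⟨p1, p2, p3, p4, p5, p6, p7⟩ := ol_par hc.2
  have hn : nsq (d32 c 0) (d32 c 1) (d32 c 2) (d32 c 3) 8 / 4 = cN c := rfl
  rw [hn] at p4 p5 p6 p7
  have q4 := ol_nsq (d32 c 0) (d32 c 1) (d32 c 2) (d32 c 3) 8
  rw [← p4] at q4
  have A0 : cA c 0 = -(cN c : ℤ) := rfl
  have A1 : cA c 1 = (d32 c 4 : ℤ) - 16 := rfl
  have A2 : cA c 2 = (d32 c 5 : ℤ) - 16 := rfl
  have A3 : cA c 3 = (d32 c 6 : ℤ) - 16 := rfl
  have B0 : cB c 0 = (d32 c 0 : ℤ) - 8 := rfl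
  have B1 : cB c 1 = (d32 c 1 : ℤ) - 8 := rfl
  have B2 : cB c 2 = (d32 c 2 : ℤ) - 8 := rfl
  have B3 : cB c 3 = (d32 c 3 : ℤ) - 8 := rfl
  refine ⟨?_, ?_, ?_⟩
  · rw [h4]
    refine ⟨cA c, ?_, ?_, ?_, rfl⟩
    · rw [A0, A1]
      omega
    · rw [A0, A2]
      omega
    · rw [A0, A3]
      omega
  · rw [e1_apply, h4]
    refine ⟨cB c, ?_, ?_, ?_, rfl⟩
    · rw [B0, B1]
      omega
    · rw [B0, B2]
      omega
    · rw [B0, B3]
      omega
  · rw [e1_norm, q_norm_sq]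
    have e : (hf (cA c)).re = (cA c 0 : ℝ) / 2 := rfl
    have f0 : (hf (cB c)).re = (cB c 0 : ℝ) / 2 := rfl
    have f1 : (hf (cB c)).imI = (cB c 1 : ℝ) / 2 := rfl
    have f2 : (hf (cB c)).imJ = (cB c 2 : ℝ) / 2 := rfl
    have f3 : (hf (cB c)).imK = (cB c 3 : ℝ) / 2 := rfl
    rw [e, f0, f1, f2, f3, A0, B0, B1, B2, B3]
    have q5 : ((4 * cN c : ℕ) : ℝ) = ((d32 c 0 : ℝ) - 8) ^ 2 + ((d32 c 1 : ℝ) - 8) ^ 2 +
        ((d32 c 2 : ℝ) - 8) ^ 2 + ((d32 c 3 : ℝ) - 8) ^ 2 := by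
      exact_mod_cast q4
    push_cast at q5 ⊢
    linarith

theorem ol_code {c c' : ℕ} (h : c < 2 ^ 35) (h' : c' < 2 ^ 35)
    (hd : ∀ i : ℕ, i < 7 → d32 c i = d32 c' i) : c = c' := by
  have key : ∀ i : ℕ, i < 7 → c / 2 ^ (5 * i) % 32 = c' / 2 ^ (5 * i) % 32 := by
    intro i hi
    have h1 := hd i hi
    have e1 : ∀ x : ℕ, d32 x i = x / 2 ^ (5 * i) % 32 := by
      intro x
      have : d32 x i = (x >>> (5 * i)) % 32 := rfl
      rw [this, Nat.shiftRight_eq_div_pow]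
    rw [e1, e1] at h1
    exact h1
  have k0 := key 0 (by norm_num)
  have k1 := key 1 (by norm_num)
  have k2 := key 2 (by norm_num)
  have k3 := key 3 (by norm_num)
  have k4 := key 4 (by norm_num)
  have k5 := key 5 (by norm_num)
  have k6 := key 6 (by norm_num)
  norm_num at k0 k1 k2 k3 k4 k5 k6 h h'
  omega

theorem ol_hf {x y : Fin 4 → ℤ} (h : hf x = hf y) : ∀ i, x i = y i := by
  have h0 : (x 0 : ℝ) / 2 = (y 0 : ℝ) / 2 := congrArg QuaternionAlgebra.re h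
  have h1 : (x 1 : ℝ) / 2 = (y 1 : ℝ) / 2 := congrArg QuaternionAlgebra.imI h
  have h2 : (x 2 : ℝ) / 2 = (y 2 : ℝ) / 2 := congrArg QuaternionAlgebra.imJ h
  have h3 : (x 3 : ℝ) / 2 = (y 3 : ℝ) / 2 := congrArg QuaternionAlgebra.imK h
  have g : ∀ a b : ℤ, (a : ℝ) / 2 = (b : ℝ) / 2 → a = b := by
    intro a b hab
    have : (a : ℝ) = b := by linarith
    exact_mod_cast this
  intro i
  fin_cases i
  · exact g _ _ h0
  · exact g _ _ h1
  · exact g _ _ h2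
  · exact g _ _ h3

theorem ol_inj {c c' : ℕ} (hc : cOK c) (hc' : cOK c') (h : wv c = wv c') : c = c' := by
  have ha : hf (cA c) = hf (cA c') := congrArg Prod.fst h
  have hb0 : e1 (hf (cB c)) = e1 (hf (cB c')) := congrArg (fun x : V 1 => x.2.1) h
  have hb : hf (cB c) = hf (cB c') := by
    have := congrArg (fun x : E 1 => x 0) hb0
    exact this
  have a := ol_hf ha
  have b := ol_hf hb
  refine ol_code hc.1 hc'.1 fun i hi => ?_
  have b0 : (d32 c 0 : ℤ) - 8 = (d32 c' 0 : ℤ) - 8 := b 0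
  have b1 : (d32 c 1 : ℤ) - 8 = (d32 c' 1 : ℤ) - 8 := b 1
  have b2 : (d32 c 2 : ℤ) - 8 = (d32 c' 2 : ℤ) - 8 := b 2
  have b3 : (d32 c 3 : ℤ) - 8 = (d32 c' 3 : ℤ) - 8 := b 3
  have a1 : (d32 c 4 : ℤ) - 16 = (d32 c' 4 : ℤ) - 16 := a 1
  have a2 : (d32 c 5 : ℤ) - 16 = (d32 c' 5 : ℤ) - 16 := a 2
  have a3 : (d32 c 6 : ℤ) - 16 = (d32 c' 6 : ℤ) - 16 := a 3
  interval_cases i
  · omega
  · omega
  · omega
  · omega
  · omega
  · omega
  · omega

/-- the vectors used in the lower bound -/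
noncomputable def ol_v : Option ℕ → V 1
  | none => w0
  | some c => wv c

theorem ol_third (u : Q) : (u • (w0 : V 1)).2.2 = 0 ∧ ∀ c, (u • wv c).2.2 = u := by
  refine ⟨?_, fun c => ?_⟩
  · change u * (0 : Q) = 0
    rw [mul_zero]
  · change u * (1 : Q) = u
    rw [mul_one]

theorem st_OL (h1 : ST_UNI) (h2 : ST_OU) (h3 : ST_OT) (h4 : ST_HZ) : ST_OL := by
  classical
  intro F p hp W hW hOK
  obtain ⟨U, hU, hUm⟩ := h1
  have hv : ∀ c ∈ W, wv c ∈ Orb MO := fun c hc => h3 _ _ (ol_NO h4 (hOK c hc))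
  have hmem : ∀ x : {u // u ∈ U} × Option {c // c ∈ W.toFinset},
      ((x.1 : Q) • ol_v (x.2.map Subtype.val)) ∈ Orb MO := by
    rintro ⟨⟨u, hu⟩, x⟩
    obtain ⟨hu1, hu2⟩ := (hUm u).1 hu
    refine h2 u hu1 hu2 _ ?_
    rcases x with _ | ⟨c, hc⟩
    · exact w0_mem MO
    · exact hv c (List.mem_toFinset.1 hc)
  let f : {u // u ∈ U} × Option {c // c ∈ W.toFinset} → Orb MO := fun x =>
    ⟨(x.1 : Q) • ol_v (x.2.map Subtype.val), hmem x⟩
  have hinj : Function.Injective f := by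
    rintro ⟨⟨u, hu⟩, x⟩ ⟨⟨u', hu'⟩, x'⟩ h
    have h0 : u • ol_v (x.map Subtype.val) = u' • ol_v (x'.map Subtype.val) :=
      congrArg Subtype.val h
    have hn : ‖u‖ = 1 := ((hUm u).1 hu).2
    have hn' : ‖u'‖ = 1 := ((hUm u').1 hu').2
    have hne : u ≠ 0 := by
      intro h
      rw [h, norm_zero] at hn
      norm_num at hn
    have hne' : u' ≠ 0 := by
      intro h
      rw [h, norm_zero] at hn'
      norm_num at hn'
    rcases x with _ | ⟨c, hc⟩ <;> rcases x' with _ | ⟨c', hc'⟩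
    · have h5 : u * (1 : Q) = u' * (1 : Q) := congrArg (fun y : V 1 => y.1) h0
      rw [mul_one, mul_one] at h5
      subst h5
      rfl
    · exfalso
      have h5 : (u • (w0 : V 1)).2.2 = (u' • wv c').2.2 := congrArg (fun y : V 1 => y.2.2) h0
      rw [(ol_third u).1, (ol_third u').2] at h5
      exact hne' h5.symm
    · exfalso
      have h5 : (u • wv c).2.2 = (u' • (w0 : V 1)).2.2 := congrArg (fun y : V 1 => y.2.2) h0
      rw [(ol_third u).2, (ol_third u').1] at h5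
      exact hne h5
    · have h5 : (u • wv c).2.2 = (u' • wv c').2.2 := congrArg (fun y : V 1 => y.2.2) h0
      rw [(ol_third u).2, (ol_third u').2] at h5
      subst h5
      have h6 : u • wv c = u • wv c' := h0
      have h7 : wv c = wv c' := by
        have h8 : u⁻¹ • (u • wv c) = u⁻¹ • (u • wv c') := by rw [h6]
        rw [smul_smul, smul_smul, inv_mul_cancel₀ hne, one_smul, one_smul] at h8
        exact h8
      have h9 := ol_inj (hOK c (List.mem_toFinset.1 hc)) (hOK c' (List.mem_toFinset.1 hc')) h7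
      subst h9
      rfl
  have hle := ENNReal.tsum_comp_le_tsum_of_injective hinj (fun w : Orb MO => F (uval w p))
  refine le_trans (le_of_eq ?_) hle
  rw [tsum_fintype, Fintype.sum_prod_type]
  have hin : ∀ u : {u // u ∈ U}, ∑ x : Option {c // c ∈ W.toFinset},
      F (uval ((f (u, x) : Orb MO) : V 1) p) =
      F (1 / hgt p) + (W.map fun c => F (uval (wv c) p)).sum := by
    rintro ⟨u, hu⟩
    have hn : ‖u‖ = 1 := ((hUm u).1 hu).2
    rw [Fintype.sum_option]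
    have e1 : F (uval ((f (⟨u, hu⟩, none) : Orb MO) : V 1) p) = F (1 / hgt p) := by
      change F (uval (u • (w0 : V 1)) p) = _
      rw [uval_smul, hn, uval_w0, one_pow, one_mul]
    have e2 : ∀ x : {c // c ∈ W.toFinset}, F (uval ((f (⟨u, hu⟩, some x) : Orb MO) : V 1) p) =
        F (uval (wv x) p) := by
      rintro ⟨c, hc⟩
      change F (uval (u • wv c) p) = _
      rw [uval_smul, hn, one_pow, one_mul]
    rw [e1, Finset.sum_congr rfl fun x _ => e2 x]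
    congr 1
    rw [Finset.sum_coe_sort W.toFinset (fun c => F (uval (wv c) p)), List.sum_toFinset _ hW]
  rw [Finset.sum_congr rfl fun u _ => hin u, Finset.sum_const, Finset.card_univ,
    Fintype.card_coe, hU, nsmul_eq_mul]
  norm_num

end Pool.Agent.Helper10.Qc
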